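import Pool.Agent.Work.MP_db9399_trl_helper59.Trail
import Pool.Agent.Work.MP_db9399_ts.Trail

/-!
helper59: TRAIL by doubling (statement of helper6, ts/Trail.lean).
-/

set_option autoImplicit false

namespace Pool.Agent.Work.MP_db9399_trl_helper59

open Finset Classical
open Pool.Agent.Work.MP_db9399_as_helper75 (round_bip)

universe u v

/-- fibre in `X` -/
noncomputable def fs {E : Type u} {W : Type v} (v : E × Bool → W) (X : Finset (E × Bool)) (w : W) :
    Finset (E × Bool) := X.filter fun x => v x = w

theorem mem_fs {E : Type u} {W : Type v} (v : E × Bool → W) (X : Finset (E × Bool)) (w : W)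
    (x : E × Bool) : x ∈ fs v X w ↔ x ∈ X ∧ v x = w := by
  unfold fs
  rw [mem_filter]

/-- pieces after `j` rounds of doubling: `X` the free ends -/
structure St {E : Type u} {W : Type v} [Fintype E] (v : E × Bool → W) (j : ℕ) (π : E → E) (s : E → ℝ)
    (X : Finset (E × Bool)) : Prop where
  s1 : ∀ e, s e = 1 ∨ s e = -1
  sz : ∀ q, (univ.filter fun e => π e = q).card ≤ 2 ^ j
  e2 : ∀ q, (X.filter fun x => π x.1 = q).card ≤ 2
  dg : ∀ w, 2 ^ j * (X.filter fun x => v x = w).card ≤ (univ.filter fun x => v x = w).card + 3 * 2 ^ j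
  cn : ∀ (ω : E → ℝ) w, ∑ x with v x = w, s x.1 * ω (π x.1) =
    ∑ x ∈ X.filter (fun x => v x = w), s x.1 * ω (π x.1)
  cl : ∀ S : E → Prop, (∀ x y : E × Bool, v x = v y → S x.1 → S y.1) →
    ∀ e f, π e = π f → S e → S f

section
variable {E : Type u} {W : Type v} [Fintype E] [Fintype W]

theorem st_zero (v : E × Bool → W) : St v 0 id (fun _ => 1) univ where
  s1 _ := Or.inl rfl
  sz q := by
    rw [pow_zero, card_le_one]
    intro a ha b hb
    simp only [id_eq, mem_filter, mem_univ, true_and] at ha hb
    rw [ha, hb]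
  e2 q := by
    have h1 : (univ.filter fun x : E × Bool => id x.1 = q) ⊆ {(q, false), (q, true)} := by
      rintro ⟨e, b⟩ hx
      simp only [id_eq, mem_filter, mem_univ, true_and] at hx
      cases b <;> simp [hx]
    exact (card_le_card h1).trans card_le_two
  dg w := by simp
  cn ω w := rfl
  cl S _ e f hef he := by
    simp only [id_eq] at hef
    rw [← hef]
    exact he

/-- choice of one free end of every piece -/
theorem exists_choice (v : E × Bool → W) (π : E → E) (X : Finset (E × Bool))
    (h2 : ∀ q, (X.filter fun x => π x.1 = q).card ≤ 2) :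
    ∃ Y ⊆ X, (∀ q, (Y.filter fun x => π x.1 = q).card ≤ 1) ∧
      ∀ w, (X.filter fun x => v x = w).card ≤ 2 * (Y.filter fun x => v x = w).card + 1 := by
  obtain ⟨z, z1, z2, z3⟩ := round_bip (fun x : E × Bool => π x.1) v
    (fun x => if x ∈ X then (1 / 2 : ℝ) else 0)
  have hf : ⌊(1 / 2 : ℝ)⌋ = 0 := by norm_num
  have hc : ⌈(1 / 2 : ℝ)⌉ = 1 := by rw [Int.ceil_eq_iff]; norm_num
  have z01 : ∀ x, z x = 0 ∨ z x = 1 := by
    intro x
    have h1 := z1 x
    by_cases hx : x ∈ X
    · simp only [hx, if_true] at h1
      rw [hf, hc] at h1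
      omega
    · simp only [hx, if_false, Int.floor_zero, Int.ceil_zero] at h1
      omega
  have zX : ∀ x, z x = 1 → x ∈ X := by
    intro x hx
    by_contra hcon
    have h1 := z1 x
    simp only [hcon, if_false, Int.floor_zero, Int.ceil_zero] at h1
    omega
  have hsum : ∀ (P : E × Bool → Prop), (∑ x with P x, z x) =
      (((univ.filter fun x => z x = 1).filter P).card : ℤ) := by
    intro P
    rw [card_eq_sum_ones]
    push_cast
    rw [sum_filter, sum_filter, sum_filter]
    refine sum_congr rfl fun x _ => ?_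
    rcases z01 x with h3 | h3 <;> by_cases h4 : P x <;> simp [h3, h4]
  have hsumx : ∀ (P : E × Bool → Prop), (∑ x with P x, (if x ∈ X then (1 / 2 : ℝ) else 0)) =
      ((X.filter P).card : ℝ) / 2 := by
    intro P
    rw [← sum_filter, filter_filter, sum_const, nsmul_eq_mul, mul_one_div]
    congr 2
    rw [← filter_filter, filter_comm]
    congr 1
    ext x
    simp
  refine ⟨univ.filter fun x => z x = 1, fun x hx => zX x (by simpa using hx), ?_, ?_⟩
  · intro q
    have h1 := (z2 q).2
    rw [hsum, hsumx] at h1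
    have h3 : ⌈((X.filter fun x => π x.1 = q).card : ℝ) / 2⌉ ≤ 1 := by
      rw [Int.ceil_le]
      have h4 : ((X.filter fun x => π x.1 = q).card : ℝ) ≤ 2 := by exact_mod_cast h2 q
      push_cast
      linarith
    exact_mod_cast h1.trans h3
  · intro w
    have h1 := (z3 w).1
    rw [hsum, hsumx] at h1
    have h3 := Int.lt_floor_add_one (((X.filter fun x => v x = w).card : ℝ) / 2)
    have h4 : ((X.filter fun x => v x = w).card : ℝ) / 2 <
        ((((univ.filter fun x => z x = 1).filter fun x => v x = w).card : ℤ) : ℝ) + 1 := by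
      refine h3.trans_le ?_
      have : ((⌊((X.filter fun x => v x = w).card : ℝ) / 2⌋ : ℤ) : ℝ) ≤
        ((((univ.filter fun x => z x = 1).filter fun x => v x = w).card : ℤ) : ℝ) := by
        exact_mod_cast h1
      linarith
    have h5 : ((X.filter fun x => v x = w).card : ℝ) <
        ((2 * ((univ.filter fun x => z x = 1).filter fun x => v x = w).card + 2 : ℕ) : ℝ) := by
      push_cast at h4 ⊢
      linarith
    have h6 : (X.filter fun x => v x = w).card <
      2 * ((univ.filter fun x => z x = 1).filter fun x => v x = w).card + 2 := by exact_mod_cast h5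
    omega

theorem st_succ (v : E × Bool → W) (j : ℕ) (π : E → E) (s : E → ℝ) (X : Finset (E × Bool))
    (h : St v j π s X) : ∃ (π' : E → E) (s' : E → ℝ) (X' : Finset (E × Bool)),
      St v (j + 1) π' s' X' := by
  obtain ⟨Y, hYX, hY1, hY2⟩ := exists_choice v π X h.e2
  obtain ⟨p, hp1, hp2, hp3⟩ := exists_pairing (fun x : E × Bool => (v x, (x ∈ Y : Prop)))
  have hpv : ∀ x, v (p x) = v x := fun x => (Prod.mk.inj (hp2 x)).1
  have hpY : ∀ x, (p x ∈ Y) = (x ∈ Y) := fun x => (Prod.mk.inj (hp2 x)).2
  obtain ⟨M, hM⟩ : ∃ M : Finset (E × Bool), M = Y.filter fun x => p x ≠ x := ⟨_, rfl⟩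
  have hMY : ∀ x, x ∈ M ↔ x ∈ Y ∧ p x ≠ x := by
    intro x
    rw [hM, mem_filter]
  have hpM : ∀ x, x ∈ M → p x ∈ M := by
    intro x hx
    rw [hMY] at hx ⊢
    refine ⟨by rw [hpY]; exact hx.1, ?_⟩
    rw [hp1]
    exact fun hh => hx.2 hh.symm
  have huniq : ∀ x y, x ∈ Y → y ∈ Y → π x.1 = π y.1 → x = y := by
    intro x y hx hy hxy
    have h1 := hY1 (π x.1)
    rw [card_le_one] at h1
    exact h1 x (by simp [hx]) y (by simp [hy, hxy])
  obtain ⟨ch, hch⟩ : ∃ ch : E → Option (E × Bool), ∀ q x, ch q = some x ↔ x ∈ M ∧ π x.1 = q := by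
    refine ⟨fun q => if hq : ∃ x, x ∈ M ∧ π x.1 = q then some hq.choose else none, ?_⟩
    intro q x
    beta_reduce
    by_cases hq : ∃ x, x ∈ M ∧ π x.1 = q
    · rw [dif_pos hq]
      have h1 := hq.choose_spec
      simp only [Option.some.injEq]
      constructor
      · intro hx
        rw [← hx]
        exact h1
      · intro hx
        exact huniq _ _ ((hMY _).1 h1.1).1 ((hMY _).1 hx.1).1 (h1.2.trans hx.2.symm)
    · rw [dif_neg hq]
      simp only [reduceCtorEq, false_iff]
      exact fun hx => hq ⟨x, hx⟩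
  have hchM : ∀ x, x ∈ M → ch (π x.1) = some x := fun x hx => (hch _ _).2 ⟨hx, rfl⟩
  obtain ⟨μ, hμ1, hμ2⟩ : ∃ μ : E → E, (∀ x, x ∈ M → μ (π x.1) = π (p x).1) ∧
      ∀ q, ch q = none → μ q = q := by
    refine ⟨fun q => match ch q with
      | some x => π (p x).1
      | none => q, ?_, ?_⟩
    · intro x hx
      simp only [hchM x hx]
    · intro q hq
      simp only [hq]
  obtain ⟨g, hg⟩ := exists_repr (fun q => ({q, μ q} : Finset E))
  obtain ⟨σ, hσ1, hσ2⟩ : ∃ σ : E → ℝ, (∀ q, σ q = 1 ∨ σ q = -1) ∧
      ∀ x, x ∈ M → s (p x).1 * σ (π (p x).1) = - (s x.1 * σ (π x.1)) := by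
    let idx := Fintype.equivFin E
    refine ⟨fun q => match ch q with
      | some x => if idx q < idx (π (p x).1) then 1 else -(s x.1 * s (p x).1)
      | none => 1, ?_, ?_⟩
    · intro q
      beta_reduce
      cases hq : ch q with
      | none => left; simp
      | some x =>
        simp only
        split_ifs
        · left; rfl
        · rcases h.s1 x.1 with h1 | h1 <;> rcases h.s1 (p x).1 with h2 | h2 <;> rw [h1, h2] <;> simp
    · intro x hx
      have hne : π x.1 ≠ π (p x).1 := by
        intro hh
        exact ((hMY x).1 hx).2 (huniq _ _ ((hMY x).1 hx).1 ((hMY _).1 (hpM x hx)).1 hh).symm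
      have hne' : idx (π x.1) ≠ idx (π (p x).1) := fun hh => hne (idx.injective hh)
      simp only [hchM x hx, hchM (p x) (hpM x hx), hp1]
      rcases lt_or_gt_of_ne hne' with h1 | h1
      · rw [if_pos h1, if_neg (not_lt.2 h1.le)]
        rcases h.s1 x.1 with h3 | h3 <;> rcases h.s1 (p x).1 with h2 | h2 <;> rw [h3, h2] <;> norm_num
      · rw [if_pos h1, if_neg (not_lt.2 h1.le)]
        rcases h.s1 x.1 with h3 | h3 <;> rcases h.s1 (p x).1 with h2 | h2 <;> rw [h3, h2] <;> norm_num
  have hgM : ∀ x, x ∈ M → g (π (p x).1) = g (π x.1) := by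
    intro x hx
    rw [hg, hμ1 x hx, hμ1 (p x) (hpM x hx), hp1, pair_comm]
  refine ⟨fun e => g (π e), fun e => s e * σ (π e), X \ M, ?_, ?_, ?_, ?_, ?_, ?_⟩
  · intro e
    rcases h.s1 e with h1 | h1 <;> rcases hσ1 (π e) with h2 | h2 <;> simp [h1, h2]
  · intro c
    by_cases hne : ∃ e, g (π e) = c
    · obtain ⟨e0, he0⟩ := hne
      have h1 : (univ.filter fun e => g (π e) = c) ⊆
          (univ.filter fun e => π e = π e0) ∪ univ.filter fun e => π e = μ (π e0) := by
        intro e he
        simp only [mem_filter, mem_univ, true_and, mem_union] at he ⊢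
        have h2 := (hg (π e) (π e0)).1 (he.trans he0.symm)
        have h3 : π e ∈ ({π e, μ (π e)} : Finset E) := by simp
        rw [h2] at h3
        simpa using h3
      have h2 := (card_le_card h1).trans (card_union_le _ _)
      have h3 := h.sz (π e0)
      have h4 := h.sz (μ (π e0))
      rw [pow_succ]
      omega
    · push Not at hne
      rw [filter_eq_empty_iff.mpr (by intro e _; exact hne e)]
      simp
  · intro c
    by_cases hne : ∃ x ∈ X \ M, g (π x.1) = c
    · obtain ⟨x0, _, hx0⟩ := hne
      cases hc : ch (π x0.1) with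
      | none =>
        have hμ := hμ2 _ hc
        refine (card_le_card ?_).trans (h.e2 (π x0.1))
        intro x hx
        simp only [mem_filter, mem_sdiff] at hx ⊢
        refine ⟨hx.1.1, ?_⟩
        have h2 := (hg (π x.1) (π x0.1)).1 (hx.2.trans hx0.symm)
        rw [hμ] at h2
        have h3 : π x.1 ∈ ({π x.1, μ (π x.1)} : Finset E) := by simp
        rw [h2] at h3
        simpa using h3
      | some y =>
        obtain ⟨hyM, hyq⟩ := (hch _ _).1 hc
        have hμ : μ (π x0.1) = π (p y).1 := by rw [← hyq]; exact hμ1 y hyM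
        have hyX : y ∈ X := hYX ((hMY y).1 hyM).1
        have hpyM := hpM y hyM
        have hpyX : p y ∈ X := hYX ((hMY _).1 hpyM).1
        have h1 : ((X \ M).filter fun x => g (π x.1) = c) ⊆
            ((X.filter fun x => π x.1 = π x0.1).erase y) ∪
            ((X.filter fun x => π x.1 = π (p y).1).erase (p y)) := by
          intro x hx
          simp only [mem_filter, mem_sdiff] at hx
          have h2 := (hg (π x.1) (π x0.1)).1 (hx.2.trans hx0.symm)
          have h3 : π x.1 ∈ ({π x.1, μ (π x.1)} : Finset E) := by simp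
          rw [h2, hμ] at h3
          simp only [mem_insert, mem_singleton] at h3
          simp only [mem_union, mem_erase, mem_filter]
          rcases h3 with h3 | h3
          · left
            exact ⟨fun hh => hx.1.2 (by rw [hh]; exact hyM), hx.1.1, h3⟩
          · right
            exact ⟨fun hh => hx.1.2 (by rw [hh]; exact hpyM), hx.1.1, h3⟩
        have h2 := (card_le_card h1).trans (card_union_le _ _)
        have h3 := h.e2 (π x0.1)
        have h4 := h.e2 (π (p y).1)
        rw [card_erase_of_mem (by simp [hyX, hyq]), card_erase_of_mem (by simp [hpyX])] at h2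
        have h2' : ((X \ M).filter fun x => g (π x.1) = c).card ≤ 2 := by omega
        exact h2'
    · push Not at hne
      rw [filter_eq_empty_iff.mpr (by intro x hx; exact hne x hx)]
      simp
  · intro w
    have h1 := h.dg w
    have h2 := hY2 w
    have h3 : ((X \ M).filter fun x => v x = w).card + (M.filter fun x => v x = w).card =
        (X.filter fun x => v x = w).card := by
      rw [← card_union_of_disjoint]
      · congr 1
        rw [← filter_union, sdiff_union_of_subset]
        intro x hx
        exact hYX ((hMY x).1 hx).1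
      · rw [disjoint_left]
        intro x hx hx'
        simp only [mem_filter, mem_sdiff] at hx hx'
        exact hx.1.2 hx'.1
    have h4 : (Y.filter fun x => v x = w).card ≤ (M.filter fun x => v x = w).card + 1 := by
      have h5 : (Y.filter fun x => v x = w) ⊆ (M.filter fun x => v x = w) ∪
          (Y.filter fun x => v x = w ∧ p x = x) := by
        intro x hx
        simp only [mem_filter, mem_union, hMY] at hx ⊢
        by_cases hpx : p x = x
        · exact Or.inr ⟨hx.1, hx.2, hpx⟩
        · exact Or.inl ⟨⟨hx.1, hpx⟩, hx.2⟩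
      have h6 : (Y.filter fun x => v x = w ∧ p x = x).card ≤ 1 := by
        rw [card_le_one]
        intro x hx y hy
        simp only [mem_filter] at hx hy
        refine hp3 x y ?_ hx.2.2 hy.2.2
        simp only [Prod.mk.injEq]
        exact ⟨hx.2.1.trans hy.2.1.symm, propext ⟨fun _ => hy.1, fun _ => hx.1⟩⟩
      exact (card_le_card h5).trans ((card_union_le _ _).trans (by omega))
    have h5 : 2 * ((X \ M).filter fun x => v x = w).card ≤ (X.filter fun x => v x = w).card + 3 := by
      omega
    rw [pow_succ]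
    calc 2 ^ j * 2 * ((X \ M).filter fun x => v x = w).card
        = 2 ^ j * (2 * ((X \ M).filter fun x => v x = w).card) := by ring
      _ ≤ 2 ^ j * ((X.filter fun x => v x = w).card + 3) := Nat.mul_le_mul_left _ h5
      _ = 2 ^ j * (X.filter fun x => v x = w).card + 3 * 2 ^ j := by ring
      _ ≤ (univ.filter fun x => v x = w).card + 3 * 2 ^ j + 3 * 2 ^ j := by omega
      _ = _ := by ring
  · intro ω w
    have h1 := h.cn (fun q => σ q * ω (g q)) w
    have h2 : ∀ x : E × Bool, s x.1 * σ (π x.1) * ω (g (π x.1)) =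
        s x.1 * (σ (π x.1) * ω (g (π x.1))) := fun x => by ring
    simp only [h2]
    rw [h1]
    have h3 : (X.filter fun x => v x = w) = ((X \ M).filter fun x => v x = w) ∪
        (M.filter fun x => v x = w) := by
      rw [← filter_union, sdiff_union_of_subset]
      intro x hx
      exact hYX ((hMY x).1 hx).1
    rw [h3, sum_union]
    · have h4 : ∑ x ∈ M.filter (fun x => v x = w), s x.1 * (σ (π x.1) * ω (g (π x.1))) = 0 := by
        refine sum_involution (fun x _ => p x) ?_ ?_ ?_ ?_
        · intro x hx
          simp only [mem_filter] at hx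
          have h5 := hσ2 x hx.1
          rw [hgM x hx.1, ← mul_assoc, ← mul_assoc, h5]
          ring
        · intro x hx _
          simp only [mem_filter] at hx
          exact ((hMY x).1 hx.1).2
        · intro x hx
          simp only [mem_filter] at hx ⊢
          exact ⟨hpM x hx.1, by rw [hpv]; exact hx.2⟩
        · intro x _
          exact hp1 x
      rw [h4, add_zero]
    · rw [disjoint_left]
      intro x hx hx'
      simp only [mem_filter, mem_sdiff] at hx hx'
      exact hx.1.2 hx'.1
  · intro S hS e f hef he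
    have h1 := (hg _ _).1 hef
    have h2 : π f ∈ ({π e, μ (π e)} : Finset E) := by
      rw [h1]
      simp
    simp only [mem_insert, mem_singleton] at h2
    rcases h2 with h2 | h2
    · exact h.cl S hS e f h2.symm he
    · cases hc : ch (π e) with
      | none =>
        rw [hμ2 _ hc] at h2
        exact h.cl S hS e f h2.symm he
      | some y =>
        obtain ⟨hyM, hyq⟩ := (hch _ _).1 hc
        rw [← hyq, hμ1 y hyM] at h2
        have h3 := h.cl S hS e y.1 hyq.symm he
        have h4 := hS y (p y) (hpv y).symm h3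
        exact h.cl S hS (p y).1 f h2.symm h4

/-- Pieces of at most `2 ^ j` edges of any graph. -/
theorem st_all (v : E × Bool → W) (j : ℕ) : ∃ (π : E → E) (s : E → ℝ) (X : Finset (E × Bool)),
    St v j π s X := by
  induction j with
  | zero => exact ⟨_, _, _, st_zero v⟩
  | succ j ih =>
    obtain ⟨π, s, X, h⟩ := ih
    exact st_succ v j π s X h

end

theorem stmt_TRAIL : Pool.Agent.Work.MP_db9399_ts.Stmt_TRAIL.{u} := by
  intro E A B _ _ _ α β J
  obtain ⟨v, hv⟩ : ∃ v : E × Bool → A ⊕ B, v = fun x => if x.2 = false then Sum.inl (α x.1)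
    else Sum.inr (β x.1) := ⟨_, rfl⟩
  obtain ⟨π, s, X, h⟩ := st_all v J
  have cA : ∀ (Y : Finset (E × Bool)) (a : A),
      fs v Y (Sum.inl a) = ((univ.filter fun e => (e, false) ∈ Y).filter fun e => α e = a).map
          ⟨fun e => (e, false), fun e e' hh => (Prod.mk.inj hh).1⟩ := by
    intro Y a
    ext ⟨e, b⟩
    rw [mem_fs, hv]
    cases b <;> simp
  have cB : ∀ (Y : Finset (E × Bool)) (b : B),
      fs v Y (Sum.inr b) = ((univ.filter fun e => (e, true) ∈ Y).filter fun e => β e = b).map
          ⟨fun e => (e, true), fun e e' hh => (Prod.mk.inj hh).1⟩ := by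
    intro Y b
    ext ⟨e, b⟩
    rw [mem_fs, hv]
    cases b <;> simp
  refine ⟨π, s, univ.filter fun e => (e, false) ∈ X, univ.filter fun e => (e, true) ∈ X, h.s1,
    h.sz, ?_, ?_, ?_, ?_, ?_⟩
  · intro q
    refine le_trans ?_ (h.e2 q)
    rw [← card_map ⟨fun e : E => (e, false), fun e e' hh => (Prod.mk.inj hh).1⟩,
      ← card_map (s := (univ.filter fun e => (e, true) ∈ X).filter fun e => π e = q)
        ⟨fun e : E => (e, true), fun e e' hh => (Prod.mk.inj hh).1⟩, ← card_union_of_disjoint]
    · apply card_le_card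
      rintro ⟨e, b⟩ hx
      simp only [mem_union, mem_map, mem_filter, mem_univ, true_and, Function.Embedding.coeFn_mk,
        Prod.mk.injEq] at hx ⊢
      rcases hx with ⟨e', he', rfl, rfl⟩ | ⟨e', he', rfl, rfl⟩
      · exact he'
      · exact he'
    · rw [disjoint_left]
      rintro ⟨e, b⟩ hx hx'
      simp only [mem_map, mem_filter, mem_univ, true_and, Function.Embedding.coeFn_mk,
        Prod.mk.injEq] at hx hx'
      obtain ⟨_, _, _, rfl⟩ := hx
      obtain ⟨_, _, _, hh⟩ := hx'
      exact absurd hh (by simp)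
  · intro a
    have h1 : 2 ^ J * (fs v X (Sum.inl a)).card ≤ (fs v univ (Sum.inl a)).card + 3 * 2 ^ J :=
      h.dg (Sum.inl a)
    rw [cA, cA, card_map, card_map] at h1
    simp only [mem_univ, filter_true] at h1
    exact_mod_cast h1
  · intro b
    have h1 : 2 ^ J * (fs v X (Sum.inr b)).card ≤ (fs v univ (Sum.inr b)).card + 3 * 2 ^ J :=
      h.dg (Sum.inr b)
    rw [cB, cB, card_map, card_map] at h1
    simp only [mem_univ, filter_true] at h1
    exact_mod_cast h1
  · intro ω a
    have h1 : ∑ x ∈ fs v univ (Sum.inl a), s x.1 * ω (π x.1) =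
      ∑ x ∈ fs v X (Sum.inl a), s x.1 * ω (π x.1) := h.cn ω (Sum.inl a)
    rw [cA, cA, sum_map, sum_map] at h1
    simpa using h1
  · intro ω b
    have h1 : ∑ x ∈ fs v univ (Sum.inr b), s x.1 * ω (π x.1) =
      ∑ x ∈ fs v X (Sum.inr b), s x.1 * ω (π x.1) := h.cn ω (Sum.inr b)
    rw [cB, cB, sum_map, sum_map] at h1
    simpa using h1

end Pool.Agent.Work.MP_db9399_trl_helper59
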