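import Mathlib

/-!
helper59: TRAIL, part 2.  Segments of length `L` along the cycles of a permutation.
-/

namespace Pool.Agent.Work.MP_db9399_trl_helper59

open Finset

section
variable {X : Type*} [Fintype X] (σ : Equiv.Perm X)

theorem exists_period (x : X) : ∃ m, 1 ≤ m ∧ (σ ^ m) x = x := by
  classical
  refine ⟨orderOf σ, orderOf_pos σ, ?_⟩
  rw [pow_orderOf_eq_one]; rfl

/-- Least period. -/
noncomputable def per (x : X) : ℕ := by
  classical
  exact Nat.find (exists_period σ x)

theorem per_pos (x : X) : 1 ≤ per σ x := by
  classical
  unfold per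
  exact (Nat.find_spec (exists_period σ x)).1

theorem per_pow (x : X) : (σ ^ per σ x) x = x := by
  classical
  unfold per
  exact (Nat.find_spec (exists_period σ x)).2

theorem per_le {x : X} {m : ℕ} (h1 : 1 ≤ m) (h2 : (σ ^ m) x = x) : per σ x ≤ m := by
  classical
  unfold per
  exact Nat.find_min' (exists_period σ x) ⟨h1, h2⟩

/-- Base point of a cycle. -/
noncomputable def base (x : X) : X :=
  Quotient.out (Quotient.mk (Equiv.Perm.SameCycle.setoid σ) x)

theorem base_same (x : X) : σ.SameCycle (base σ x) x := by
  have h := Quotient.mk_out (s := Equiv.Perm.SameCycle.setoid σ) x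
  exact h

theorem base_eq_of_same {x y : X} (h : σ.SameCycle x y) : base σ x = base σ y := by
  unfold base
  rw [Quotient.sound (s := Equiv.Perm.SameCycle.setoid σ) h]

theorem exists_idx (x : X) : ∃ n, (σ ^ n) (base σ x) = x := by
  obtain ⟨n, hn⟩ := (base_same σ x).exists_nat_pow_eq
  exact ⟨n, hn⟩

/-- Position on the cycle. -/
noncomputable def idx (x : X) : ℕ := by
  classical
  exact Nat.find (exists_idx σ x)

theorem idx_pow (x : X) : (σ ^ idx σ x) (base σ x) = x := by
  classical
  unfold idx
  exact Nat.find_spec (exists_idx σ x)

theorem idx_le {x : X} {n : ℕ} (h : (σ ^ n) (base σ x) = x) : idx σ x ≤ n := by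
  classical
  unfold idx
  exact Nat.find_min' (exists_idx σ x) h

theorem idx_lt (x : X) : idx σ x < per σ (base σ x) := by
  by_contra hcon
  push Not at hcon
  have h1 : (σ ^ (idx σ x - per σ (base σ x))) (base σ x) = x := by
    have h2 := idx_pow σ x
    rw [show idx σ x = (idx σ x - per σ (base σ x)) + per σ (base σ x) by omega, pow_add,
      Equiv.Perm.mul_apply, per_pow] at h2
    exact h2
  have h3 := idx_le σ h1
  have h4 := per_pos σ (base σ x)
  omega

theorem idx_of_lt {r : X} (hr : base σ r = r) {j : ℕ} (hj : j < per σ r) :
    base σ ((σ ^ j) r) = r ∧ idx σ ((σ ^ j) r) = j := by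
  have h1 : base σ ((σ ^ j) r) = r := by
    rw [← hr]
    refine (base_eq_of_same σ ?_).trans (by rw [hr])
    rw [hr]
    exact ⟨-(j : ℤ), by simp⟩
  refine ⟨h1, ?_⟩
  have h2 : idx σ ((σ ^ j) r) ≤ j := idx_le σ (by rw [h1])
  rcases h2.lt_or_eq with h3 | h3
  · exfalso
    have h4 := idx_pow σ ((σ ^ j) r)
    rw [h1] at h4
    set i := idx σ ((σ ^ j) r)
    have h5 : (σ ^ (j - i)) r = r := by
      have h6 : (σ ^ i) ((σ ^ (j - i)) r) = (σ ^ i) r := by
        rw [← Equiv.Perm.mul_apply, ← pow_add, show i + (j - i) = j by omega, h4]
      exact (σ ^ i).injective h6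
    have h7 := per_le σ (by omega) h5
    omega
  · exact h3

variable [DecidableEq X]

/-- Segments along the cycles of a permutation. -/
theorem exists_segments (L : ℕ) (hL : 1 ≤ L) :
    ∃ seg : X → X × ℕ, (∀ q, (univ.filter fun x => seg x = q).card ≤ L) ∧
      ∀ C : Finset X, (∀ q, (univ.filter fun x => seg x = q).card = L → ∃ x ∈ C, seg x = q) →
        ∀ x, (∃ k < 3 * L, (σ ^ k) x ∈ C) ∨ ∃ m, 1 ≤ m ∧ m ≤ L ∧ (σ ^ m) x = x := by
  refine ⟨fun x => (base σ x, idx σ x / L), ?_, ?_⟩
  · rintro ⟨r, q⟩
    have h := card_le_card_of_injOn (s := univ.filter fun x => (base σ x, idx σ x / L) = (r, q))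
      (t := Finset.Ico (q * L) (q * L + L)) (idx σ) (by
        intro x hx
        simp only [coe_filter, mem_univ, true_and, Set.mem_setOf_eq, Prod.mk.injEq] at hx
        have h1 := Nat.div_add_mod (idx σ x) L
        have h2 := Nat.mod_lt (idx σ x) (show 0 < L by omega)
        rw [hx.2, mul_comm] at h1
        simp only [coe_Ico, Set.mem_Ico]
        omega) (by
        intro x hx y hy hxy
        simp only [coe_filter, mem_univ, true_and, Set.mem_setOf_eq, Prod.mk.injEq] at hx hy
        rw [← idx_pow σ x, ← idx_pow σ y, hx.1, hy.1, hxy])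
    rw [Nat.card_Ico] at h
    have h3 : (univ.filter fun x => (fun x => (base σ x, idx σ x / L)) x = (r, q)).card ≤ L := by
      refine h.trans (by omega)
    exact h3
  · intro C hC x
    have full : ∀ r, base σ r = r → ∀ q, (q + 1) * L ≤ per σ r →
        ∃ y ∈ C, base σ y = r ∧ q * L ≤ idx σ y ∧ idx σ y < q * L + L := by
      intro r hr q hq
      have h1 : (univ.filter fun x => (base σ x, idx σ x / L) = (r, q)).card = L := by
        apply le_antisymm
        · have h := card_le_card_of_injOn (s := univ.filter fun x => (base σ x, idx σ x / L) = (r, q))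
            (t := Finset.Ico (q * L) (q * L + L)) (idx σ) (by
              intro x hx
              simp only [coe_filter, mem_univ, true_and, Set.mem_setOf_eq, Prod.mk.injEq] at hx
              have h1 := Nat.div_add_mod (idx σ x) L
              have h2 := Nat.mod_lt (idx σ x) (show 0 < L by omega)
              rw [hx.2, mul_comm] at h1
              simp only [coe_Ico, Set.mem_Ico]
              omega) (by
              intro x hx y hy hxy
              simp only [coe_filter, mem_univ, true_and, Set.mem_setOf_eq, Prod.mk.injEq] at hx hy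
              rw [← idx_pow σ x, ← idx_pow σ y, hx.1, hy.1, hxy])
          rw [Nat.card_Ico] at h
          exact h.trans (by omega)
        · have h := card_le_card_of_injOn (s := Finset.Ico (q * L) (q * L + L))
            (t := univ.filter fun x => (base σ x, idx σ x / L) = (r, q))
            (fun j => (σ ^ j) r) (by
              intro j hj
              simp only [coe_Ico, Set.mem_Ico] at hj
              have h2 : j < per σ r := by
                rw [add_mul, one_mul] at hq
                omega
              have h3 := idx_of_lt σ hr h2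
              simp only [coe_filter, mem_univ, true_and, Set.mem_setOf_eq, Prod.mk.injEq]
              refine ⟨h3.1, ?_⟩
              rw [h3.2]
              apply le_antisymm
              · rw [← Nat.lt_succ_iff, Nat.div_lt_iff_lt_mul (by omega), Nat.succ_mul]
                omega
              · rw [Nat.le_div_iff_mul_le (by omega)]
                exact hj.1) (by
              intro i hi j hj hij
              simp only [coe_Ico, Set.mem_Ico] at hi hj
              rw [add_mul, one_mul] at hq
              have h3 := idx_of_lt σ hr (j := i) (by omega)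
              have h4 := idx_of_lt σ hr (j := j) (by omega)
              simp only at hij
              rw [← h3.2, ← h4.2, hij])
          rw [Nat.card_Ico] at h
          omega
      obtain ⟨y, hy, hyq⟩ := hC (r, q) h1
      simp only [Prod.mk.injEq] at hyq
      refine ⟨y, hy, hyq.1, ?_⟩
      have h1 := Nat.div_add_mod (idx σ y) L
      have h2 := Nat.mod_lt (idx σ y) (show 0 < L by omega)
      rw [hyq.2, mul_comm] at h1
      omega
    set r := base σ x with hrdef
    have hr : base σ r = r := base_eq_of_same σ (base_same σ x)
    by_cases hm : per σ r ≤ L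
    · right
      refine ⟨per σ r, per_pos σ r, hm, ?_⟩
      rw [← idx_pow σ x, ← hrdef, ← Equiv.Perm.mul_apply, ← pow_add, add_comm, pow_add,
        Equiv.Perm.mul_apply, per_pow]
    · left
      push Not at hm
      have hn := idx_lt σ x
      rw [← hrdef] at hn
      have hx := idx_pow σ x
      rw [← hrdef] at hx
      have hdiv := Nat.div_add_mod (idx σ x) L
      have hmod := Nat.mod_lt (idx σ x) (show 0 < L by omega)
      rw [mul_comm] at hdiv
      by_cases hc : (idx σ x / L + 1 + 1) * L ≤ per σ r
      · obtain ⟨y, hy, hyb, hy1, hy2⟩ := full r hr (idx σ x / L + 1) hc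
        have hyp := idx_pow σ y
        rw [hyb] at hyp
        rw [add_mul, one_mul] at hy1 hy2
        refine ⟨idx σ y - idx σ x, by omega, ?_⟩
        have : (σ ^ (idx σ y - idx σ x)) x = y := by
          rw [← hx, ← Equiv.Perm.mul_apply, ← pow_add, hx,
            show idx σ y - idx σ x + idx σ x = idx σ y by omega, hyp]
        rw [this]
        exact hy
      · obtain ⟨y, hy, hyb, hy1, hy2⟩ := full r hr 0 (by omega)
        have hyp := idx_pow σ y
        rw [hyb] at hyp
        rw [zero_mul] at hy1 hy2
        rw [add_mul, add_mul, one_mul] at hc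
        refine ⟨idx σ y + (per σ r - idx σ x), by omega, ?_⟩
        have : (σ ^ (idx σ y + (per σ r - idx σ x))) x = y := by
          rw [← hx, ← Equiv.Perm.mul_apply, ← pow_add, hx,
            show idx σ y + (per σ r - idx σ x) + idx σ x = idx σ y + per σ r by omega, pow_add,
            Equiv.Perm.mul_apply, per_pow, hyp]
        rw [this]
        exact hy

end

end Pool.Agent.Work.MP_db9399_trl_helper59
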