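import Pool.Agent.Work.MP_db9399_trl_helper59.Walk
import Pool.Agent.Work.MP_db9399_trl_helper59.Seg

/-!
helper59: TRAIL, part 3.  Cutting the pairings at a set `C` of darts; components of the cut walk.
-/

namespace Pool.Agent.Work.MP_db9399_trl_helper59

open Finset

section
variable {E : Type*} [DecidableEq E] (p : Bool → E → E) (h : ∀ i e, p i (p i e) = e)
  (C : Finset (E × Bool))

/-- The pairing after the cuts. -/
def cutp (i : Bool) (e : E) : E := if (e, i) ∈ C ∨ (p i e, i) ∈ C then e else p i e

include h in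
theorem cutp_invol (i : Bool) (e : E) : cutp p C i (cutp p C i e) = e := by
  unfold cutp
  by_cases hc : (e, i) ∈ C ∨ (p i e, i) ∈ C
  · rw [if_pos hc, if_pos hc]
  · rw [if_neg hc, if_neg (by rw [h]; exact fun hh => hc hh.symm), h]

theorem cutp_of_ne {i : Bool} {e : E} (he : cutp p C i e ≠ e) : cutp p C i e = p i e := by
  unfold cutp at he ⊢
  by_cases hc : (e, i) ∈ C ∨ (p i e, i) ∈ C
  · rw [if_pos hc] at he; exact absurd rfl he
  · rw [if_neg hc]

theorem cutp_of_mem {x : E × Bool} (hx : x ∈ C) : cutp p C x.2 x.1 = x.1 := by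
  unfold cutp
  rw [if_pos (Or.inl hx)]

/-- Following the uncut walk as long as no end is met. -/
theorem follow (x : E × Bool) (k : ℕ)
    (hk : ∀ j < k, cutp p C ((tau p h ^ j) x).2 ((tau p h ^ j) x).1 ≠ ((tau p h ^ j) x).1) :
    (tau (cutp p C) (cutp_invol p h C) ^ k) x = (tau p h ^ k) x := by
  induction k with
  | zero => simp
  | succ k ih =>
    rw [pow_succ', Equiv.Perm.mul_apply, ih fun j hj => hk j (by omega), pow_succ',
      Equiv.Perm.mul_apply, tau_apply, tau_apply, cutp_of_ne p C (hk k (by omega))]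

variable {q : Bool → E → E} (hq : ∀ i e, q i (q i e) = e)

omit [DecidableEq E] in
theorem tau_of_end {x : E × Bool} (hx : q x.2 x.1 = x.1) : tau q hq x = rev x := by
  rw [tau_apply, hx]; rfl

omit [DecidableEq E] in
theorem to_rev {x : E × Bool} {k : ℕ} (hk : q ((tau q hq ^ k) x).2 ((tau q hq ^ k) x).1 =
    ((tau q hq ^ k) x).1) : (tau q hq ^ (2 * k + 1)) x = rev x := by
  rw [show 2 * k + 1 = k + 1 + k by ring, pow_add, Equiv.Perm.mul_apply, pow_succ,
    Equiv.Perm.mul_apply, tau_of_end hq hk, pow_rev_pow]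

/-- Bounded periods of the cut walk. -/
theorem period (K : ℕ)
    (hseg : ∀ x, (∃ k < K, (tau p h ^ k) x ∈ C) ∨ ∃ m, 1 ≤ m ∧ m ≤ K ∧ (tau p h ^ m) x = x)
    (x : E × Bool) :
    ∃ m, 1 ≤ m ∧ m ≤ 4 * K ∧ (tau (cutp p C) (cutp_invol p h C) ^ m) x = x := by
  have key : ∀ y : E × Bool,
      (∃ k < K, (tau (cutp p C) (cutp_invol p h C) ^ (2 * k + 1)) y = rev y) ∨
      ∃ m, 1 ≤ m ∧ m ≤ K ∧ (tau (cutp p C) (cutp_invol p h C) ^ m) y = y := by
    intro y
    by_cases hA : ∃ k, k < K ∧ cutp p C ((tau p h ^ k) y).2 ((tau p h ^ k) y).1 = ((tau p h ^ k) y).1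
    · left
      have h1 := (Nat.find_spec hA).1
      have h2 := (Nat.find_spec hA).2
      refine ⟨Nat.find hA, h1, to_rev _ ?_⟩
      rw [follow p h C y _ fun j hj hh => Nat.find_min hA hj ⟨by omega, hh⟩]
      exact h2
    · right
      push Not at hA
      rcases hseg y with ⟨k, hk, hkC⟩ | ⟨m, h1, h2, h3⟩
      · exact absurd (cutp_of_mem p C hkC) (hA k hk)
      · refine ⟨m, h1, h2, ?_⟩
        rw [follow p h C y m fun j hj => hA j (by omega), h3]
  rcases key x with ⟨k, hk, hx⟩ | ⟨m, h1, h2, h3⟩
  · rcases key (rev x) with ⟨k', hk', hx'⟩ | ⟨m, h1, h2, h3⟩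
    · refine ⟨(2 * k' + 1) + (2 * k + 1), by omega, by omega, ?_⟩
      rw [pow_add, Equiv.Perm.mul_apply, hx, hx', rev_rev]
    · refine ⟨m, h1, by omega, ?_⟩
      have h4 := pow_rev_pow (cutp p C) (cutp_invol p h C) m (rev x)
      rw [h3, rev_rev] at h4
      exact h4
  · exact ⟨m, h1, by omega, h3⟩

end

section comp
variable {E : Type*} [Fintype E] {q : Bool → E → E} (hq : ∀ i e, q i (q i e) = e)

theorem same_rev {x y : E × Bool} (hxy : (tau q hq).SameCycle x y) :
    (tau q hq).SameCycle (rev x) (rev y) := by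
  obtain ⟨n, hn⟩ := hxy.exists_nat_pow_eq
  have h1 := pow_rev_pow q hq n x
  rw [hn] at h1
  refine Equiv.Perm.SameCycle.symm ⟨n, ?_⟩
  rw [zpow_natCast]
  exact h1

/-- Two edges on the same trail piece. -/
def compSetoid : Setoid E where
  r e f := ∃ i j, (tau q hq).SameCycle (e, i) (f, j)
  iseqv := by
    refine ⟨fun e => ⟨false, false, Equiv.Perm.SameCycle.refl _ _⟩, ?_, ?_⟩
    · rintro e f ⟨i, j, hij⟩
      exact ⟨j, i, hij.symm⟩
    · rintro e f g ⟨i, j, hij⟩ ⟨k, l, hkl⟩
      by_cases hjk : j = k
      · subst hjk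
        exact ⟨i, l, hij.trans hkl⟩
      · have h1 := same_rev hq hkl
        have h2 : rev (f, k) = (f, j) := by
          unfold rev
          simp only [Prod.mk.injEq, true_and]
          cases j <;> cases k <;> simp_all
        rw [h2] at h1
        exact ⟨i, !l, hij.trans h1⟩

/-- Representative of the piece. -/
noncomputable def kap (e : E) : E := Quotient.out (Quotient.mk (compSetoid hq) e)

theorem kap_spec (e : E) : ∃ i j, (tau q hq).SameCycle (kap hq e, i) (e, j) :=
  Quotient.mk_out (s := compSetoid hq) e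

theorem kap_eq_iff {e f : E} : kap hq e = kap hq f ↔ ∃ i j, (tau q hq).SameCycle (e, i) (f, j) := by
  constructor
  · intro hef
    have h1 := kap_spec hq e
    have h2 := kap_spec hq f
    have h3 : (compSetoid hq).r (kap hq e) e := h1
    have h4 : (compSetoid hq).r (kap hq f) f := h2
    rw [← hef] at h4
    exact (compSetoid hq).trans ((compSetoid hq).symm h3) h4
  · intro hef
    unfold kap
    rw [Quotient.sound (s := compSetoid hq) hef]

theorem kap_kap (e : E) : kap hq (kap hq e) = kap hq e := (kap_eq_iff hq).mpr (kap_spec hq e)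

theorem kap_q (i : Bool) (e : E) : kap hq (q i e) = kap hq e := by
  refine (kap_eq_iff hq).mpr ⟨!i, i, Equiv.Perm.SameCycle.symm ⟨1, ?_⟩⟩
  rw [zpow_one, tau_apply]

theorem kap_same {e f : E} (hef : kap hq e = kap hq f) (i : Bool) :
    ∃ j, (tau q hq).SameCycle (e, i) (f, j) := by
  obtain ⟨i', j, hij⟩ := (kap_eq_iff hq).mp hef
  by_cases hi : i' = i
  · subst hi; exact ⟨j, hij⟩
  · have h1 := same_rev hq hij
    have h2 : rev (e, i') = (e, i) := by
      unfold rev
      simp only [Prod.mk.injEq, true_and]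
      cases i <;> cases i' <;> simp_all
    rw [h2] at h1
    exact ⟨!j, h1⟩

/-- A point of the cycle is reached in less than one period. -/
theorem exists_pow_lt {X : Type*} [Fintype X] (σ : Equiv.Perm X) {x y : X} {m : ℕ} (hm : 1 ≤ m)
    (hx : (σ ^ m) x = x) (hxy : σ.SameCycle x y) : ∃ n < m, (σ ^ n) x = y := by
  obtain ⟨n, hn⟩ := hxy.exists_nat_pow_eq
  refine ⟨n % m, Nat.mod_lt _ (by omega), ?_⟩
  rw [← hn]
  conv_rhs => rw [← Nat.mod_add_div n m, pow_add, Equiv.Perm.mul_apply, pow_mul]
  congr 1
  generalize n / m = t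
  induction t with
  | zero => simp
  | succ t ih => rw [pow_succ, Equiv.Perm.mul_apply, hx, ← ih]

variable [DecidableEq E]

theorem kap_card (e : E) (m : ℕ) (hm : 1 ≤ m) (hx : (tau q hq ^ m) (e, false) = (e, false)) :
    (univ.filter fun f => kap hq f = kap hq e).card ≤ m := by
  have h1 : (univ.filter fun f => kap hq f = kap hq e) ⊆
      (range m).image fun n => ((tau q hq ^ n) (e, false)).1 := by
    intro f hf
    simp only [mem_filter, mem_univ, true_and] at hf
    obtain ⟨j, hj⟩ := kap_same hq hf.symm false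
    obtain ⟨n, hn, hn'⟩ := exists_pow_lt _ hm hx hj
    simp only [mem_image, mem_range]
    exact ⟨n, hn, by rw [hn']⟩
  exact (card_le_card h1).trans (card_image_le.trans (by simp))

/-- A piece has at most two ends. -/
theorem ends_le_two (i : Bool) (c : E) :
    (univ.filter fun f => kap hq f = c ∧ q i f = f).card ≤ 2 := by
  by_cases hne : (univ.filter fun f => kap hq f = c ∧ q i f = f).Nonempty
  · obtain ⟨f, hf⟩ := hne
    simp only [mem_filter, mem_univ, true_and] at hf
    set n := per (tau q hq) (f, i) with hn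
    have hsub : (univ.filter fun f => kap hq f = c ∧ q i f = f) ⊆
        {f, ((tau q hq ^ (n / 2)) (f, i)).1} := by
      intro g hg
      simp only [mem_filter, mem_univ, true_and] at hg
      have hsame : (tau q hq).SameCycle (f, i) (g, i) := by
        obtain ⟨j, hj⟩ := kap_same hq (hf.1.trans hg.1.symm) i
        by_cases hji : j = i
        · rw [hji] at hj; exact hj
        · have h2 : tau q hq (g, i) = (g, j) := by
            rw [tau_apply]
            simp only [hg.2, Prod.mk.injEq, true_and]
            cases i <;> cases j <;> simp_all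
          rw [← h2] at hj
          exact hj.trans (Equiv.Perm.SameCycle.symm ⟨1, by simp⟩)
      obtain ⟨k, hk, hkg⟩ := exists_pow_lt _ (per_pos _ _) (per_pow (tau q hq) (f, i)) hsame
      have h1 := pow_rev_pow q hq k (f, i)
      have hfe : tau q hq (f, i) = rev (f, i) := tau_of_end hq hf.2
      have hge : tau q hq (g, i) = rev (g, i) := tau_of_end hq hg.2
      rw [hkg, ← hge, ← hfe, ← Equiv.Perm.mul_apply, ← pow_succ, pow_succ',
        Equiv.Perm.mul_apply] at h1
      have h2 := (tau q hq).injective h1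
      have h3 : (tau q hq ^ (2 * k)) (f, i) = (f, i) := by
        rw [two_mul, pow_add, Equiv.Perm.mul_apply, hkg, h2]
      simp only [mem_insert, mem_singleton]
      rcases Nat.eq_zero_or_pos k with hk0 | hk0
      · left
        rw [hk0] at hkg
        simp only [pow_zero, Equiv.Perm.coe_one, id_eq, Prod.mk.injEq, and_true] at hkg
        exact hkg.symm
      · right
        have h4 := per_le (tau q hq) (by omega) h3
        rw [← hn] at h4 hk
        rcases h4.lt_or_eq with h5 | h5
        · exfalso
          have h6 : (tau q hq ^ (2 * k - n)) (f, i) = (f, i) := by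
            have h7 := h3
            rw [show 2 * k = (2 * k - n) + n by omega, pow_add, Equiv.Perm.mul_apply, hn,
              per_pow, ← hn] at h7
            exact h7
          have h8 := per_le (tau q hq) (by omega) h6
          rw [← hn] at h8
          omega
        · rw [show n / 2 = k by omega, hkg]
    exact (card_le_card hsub).trans card_le_two
  · rw [not_nonempty_iff_eq_empty] at hne
    rw [hne]
    simp

end comp

end Pool.Agent.Work.MP_db9399_trl_helper59
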