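import Pool.Agent.Work.MP_db9399_trl_helper59.Cut

/-!
helper59: TRAIL (note 1612 (H1)).  The edges `E` of a bipartite multigraph (ends `a false`, `a true`)
are cut into pieces `κ` of at most `12 L` edges and coloured alternately by `s`; a piece has at most
two ends, and the pieces have at most `2 (deg / L + 1) + 1` ends at every vertex.
-/

namespace Pool.Agent.Work.MP_db9399_trl_helper59

open Finset
open Pool.Agent.Work.MP_db9399_as_helper75 (round_bip)

theorem exists_alt {E : Type*} [Fintype E] [DecidableEq E] (p : Bool → E → E)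
    (h : ∀ i e, p i (p i e) = e) :
    ∃ s : E → ℤ, (∀ e, s e = 1 ∨ s e = -1) ∧ ∀ i e, p i e ≠ e → s (p i e) = - s e := by
  obtain ⟨z, z1, z2, z3⟩ := round_bip (fun e => ({e, p false e} : Finset E))
    (fun e => ({e, p true e} : Finset E)) (fun _ => (1 / 2 : ℝ))
  have z01 : ∀ e, z e = 0 ∨ z e = 1 := by
    intro e
    have h1 := (z1 e).1
    have h2 := (z1 e).2
    have h3 : ⌊(1 / 2 : ℝ)⌋ = 0 := by norm_num
    have h4 : ⌈(1 / 2 : ℝ)⌉ = 1 := by
      rw [Int.ceil_eq_iff]; norm_num
    rw [h3] at h1
    rw [h4] at h2
    omega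
  have hfib : ∀ i e, p i e ≠ e → (univ.filter fun f => ({f, p i f} : Finset E) = {e, p i e}) =
      {e, p i e} := by
    intro i e he
    ext f
    simp only [mem_filter, mem_univ, true_and, mem_insert, mem_singleton]
    constructor
    · intro hf
      have : f ∈ ({f, p i f} : Finset E) := by simp
      rw [hf] at this
      simpa using this
    · rintro (rfl | rfl)
      · rfl
      · rw [h, pair_comm]
  have hsum : ∀ i e, p i e ≠ e → z (p i e) = 1 - z e := by
    intro i e he
    have hs : ∑ f with ({f, p i f} : Finset E) = {e, p i e}, (1 / 2 : ℝ) = 1 := by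
      rw [hfib i e he, sum_pair he.symm]; norm_num
    have hz : ∑ f with ({f, p i f} : Finset E) = {e, p i e}, z f = z e + z (p i e) := by
      rw [hfib i e he, sum_pair he.symm]
    cases i with
    | false =>
      have h5 := z2 {e, p false e}
      rw [hs, hz, Int.floor_one, Int.ceil_one] at h5
      omega
    | true =>
      have h5 := z3 {e, p true e}
      rw [hs, hz, Int.floor_one, Int.ceil_one] at h5
      omega
  refine ⟨fun e => 2 * z e - 1, fun e => ?_, fun i e he => ?_⟩
  · rcases z01 e with h1 | h1 <;> simp [h1]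
  · have h1 := hsum i e he
    simp only
    omega

/-- A map may be replaced by a choice of representatives. -/
theorem exists_repr {X Y : Type*} (f : X → Y) : ∃ g : X → X, ∀ x y, g x = g y ↔ f x = f y := by
  refine ⟨fun x => Quotient.out (Quotient.mk (Setoid.ker f) x), fun x y => ⟨fun h => ?_, fun h => ?_⟩⟩
  · have h1 : (Setoid.ker f).r (Quotient.out (Quotient.mk (Setoid.ker f) x)) x :=
      Quotient.mk_out (s := Setoid.ker f) x
    have h2 : (Setoid.ker f).r (Quotient.out (Quotient.mk (Setoid.ker f) y)) y :=
      Quotient.mk_out (s := Setoid.ker f) y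
    rw [show Quotient.out (Quotient.mk (Setoid.ker f) y) = Quotient.out (Quotient.mk (Setoid.ker f) x)
      from h.symm] at h2
    exact (Setoid.ker f).trans ((Setoid.ker f).symm h1) h2
  · have h1 : Quotient.mk (Setoid.ker f) x = Quotient.mk (Setoid.ker f) y :=
      Quotient.sound (s := Setoid.ker f) h
    simp only [h1]

section
variable {E A : Type*} [Fintype E] [DecidableEq E] [DecidableEq A]

/-- Cut darts: one in every full segment, at most `⌈deg / L⌉` at every vertex. -/
theorem exists_cuts (a : Bool → E → A) (L : ℕ) (hL : 1 ≤ L) {Y : Type*} [DecidableEq Y]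
    (seg : E × Bool → Y) : ∃ C : Finset (E × Bool),
      (∀ q, (univ.filter fun x => seg x = q).card = L → ∃ x ∈ C, seg x = q) ∧
      ∀ i v, (univ.filter fun e => a i e = v ∧ (e, i) ∈ C).card ≤
        ⌈((univ.filter fun e => a i e = v).card : ℝ) / L⌉₊ := by
  have hL' : (0 : ℝ) < L := by exact_mod_cast (show 0 < L by omega)
  have hL1 : (1 : ℝ) ≤ L := by exact_mod_cast hL
  obtain ⟨sg, hsg⟩ := exists_repr seg
  obtain ⟨be, hbe⟩ := exists_repr (fun x : E × Bool => (x.2, a x.2 x.1))
  obtain ⟨z, z1, z2, z3⟩ := round_bip sg be (fun _ => (1 / L : ℝ))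
  have z01 : ∀ x, z x = 0 ∨ z x = 1 := by
    intro x
    have h1 := (z1 x).1
    have h2 := (z1 x).2
    have h3 : 0 ≤ ⌊(1 / L : ℝ)⌋ := Int.floor_nonneg.mpr (by positivity)
    have h4 : ⌈(1 / L : ℝ)⌉ ≤ 1 := Int.ceil_le.mpr (by
      rw [div_le_iff₀ hL']; push_cast; linarith)
    omega
  refine ⟨univ.filter fun x => z x = 1, ?_, ?_⟩
  · intro q hq
    obtain ⟨x0, hx0⟩ : (univ.filter fun x => seg x = q).Nonempty := by
      rw [← card_pos, hq]; omega
    simp only [mem_filter, mem_univ, true_and] at hx0
    have hfib : (univ.filter fun x => sg x = sg x0) = univ.filter fun x => seg x = q := by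
      ext x
      simp only [mem_filter, mem_univ, true_and]
      rw [hsg, hx0]
    have h1 := (z2 (sg x0)).1
    rw [hfib, sum_const, hq, nsmul_eq_mul, mul_one_div_cancel hL'.ne', Int.floor_one] at h1
    by_contra hcon
    push Not at hcon
    have h2 : ∑ x with seg x = q, z x = 0 := by
      refine sum_eq_zero fun x hx => ?_
      simp only [mem_filter, mem_univ, true_and] at hx
      rcases z01 x with h3 | h3
      · exact h3
      · exact absurd hx (hcon x (by simp [h3]))
    omega
  · intro i v
    by_cases hne : ∃ e, a i e = v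
    swap
    · push Not at hne
      rw [filter_eq_empty_iff.mpr (by intro e _ he; exact hne e he.1)]
      simp
    obtain ⟨e0, he0⟩ := hne
    have hfib : (univ.filter fun x : E × Bool => be x = be (e0, i)) =
        univ.filter fun x : E × Bool => (x.2, a x.2 x.1) = (i, v) := by
      ext x
      simp only [mem_filter, mem_univ, true_and]
      rw [hbe, he0]
    have h1 := (z3 (be (e0, i))).2
    rw [hfib] at h1
    have h2 : (∑ x : E × Bool with (x.2, a x.2 x.1) = (i, v), z x) =
        ((univ.filter fun e => a i e = v ∧ (e, i) ∈ (univ.filter fun x => z x = 1)).card : ℤ) := by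
      rw [card_eq_sum_ones]
      push_cast
      rw [sum_filter, sum_filter, Fintype.sum_prod_type]
      refine sum_congr rfl fun e _ => ?_
      rw [Fintype.sum_bool]
      simp only [Prod.mk.injEq, mem_filter, mem_univ, true_and]
      rcases z01 (e, false) with h3 | h3 <;> rcases z01 (e, true) with h4 | h4 <;>
        cases i <;> by_cases h5 : a false e = v <;> by_cases h6 : a true e = v <;>
        simp [h3, h4, h5, h6]
    have h3 : (∑ x : E × Bool with (x.2, a x.2 x.1) = (i, v), (1 / L : ℝ)) =
        ((univ.filter fun e => a i e = v).card : ℝ) / L := by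
      have h4 : ((univ.filter fun x : E × Bool => (x.2, a x.2 x.1) = (i, v)).card : ℝ) =
          ((univ.filter fun e => a i e = v).card : ℝ) := by
        congr 1
        refine card_nbij' (fun x => x.1) (fun e => (e, i)) ?_ ?_ ?_ ?_
        · intro x hx
          simp only [coe_filter, mem_univ, true_and, Prod.mk.injEq, Set.mem_ofPred_eq] at hx ⊢
          rw [← hx.1]; exact hx.2
        · intro e he
          simp only [coe_filter, mem_univ, true_and, Prod.mk.injEq, Set.mem_ofPred_eq] at he ⊢
          exact he
        · intro x hx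
          simp only [coe_filter, mem_univ, true_and, Prod.mk.injEq, Set.mem_ofPred_eq] at hx
          rw [← hx.1]
        · intro e he
          rfl
      rw [sum_const, nsmul_eq_mul, h4, mul_one_div]
    rw [h2, h3] at h1
    have h5 : (0 : ℝ) ≤ ((univ.filter fun e => a i e = v).card : ℝ) / L := by positivity
    rw [← Int.natCast_ceil_eq_ceil h5] at h1
    exact_mod_cast h1

/-- TRAIL. -/
theorem trail (a : Bool → E → A) (L : ℕ) (hL : 1 ≤ L) :
    ∃ (κ : E → E) (s : E → ℤ), (∀ e, s e = 1 ∨ s e = -1) ∧ (∀ e, κ (κ e) = κ e) ∧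
      (∀ c, (univ.filter fun f => κ f = c).card ≤ 12 * L) ∧
      (∀ i v c, |∑ e with a i e = v ∧ κ e = c, s e| ≤ 2) ∧
      (∀ i v, ∑ c, |∑ e with a i e = v ∧ κ e = c, s e| ≤
        2 * (⌈((univ.filter fun e => a i e = v).card : ℝ) / L⌉₊ : ℤ) + 1) ∧
      ∀ S : Set E, (∀ i e f, a i e = a i f → e ∈ S → f ∈ S) →
        ∀ e f, κ e = κ f → e ∈ S → f ∈ S := by
  have hp := fun i => exists_pairing (a i)
  choose p hp1 hp2 hp3 using hp
  obtain ⟨s, hs1, hs2⟩ := exists_alt p hp1
  obtain ⟨seg, hseg1, hseg2⟩ := exists_segments (tau p hp1) L hL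
  obtain ⟨C, hC1, hC2⟩ := exists_cuts a L hL seg
  have hper := hseg2 C hC1
  set q := cutp p C with hqdef
  have hq : ∀ i e, q i (q i e) = e := cutp_invol p hp1 C
  have hper' : ∀ x : E × Bool, ∃ m, 1 ≤ m ∧ m ≤ 4 * (3 * L) ∧ (tau q hq ^ m) x = x := by
    refine period p hp1 C (3 * L) fun x => ?_
    rcases hper x with h1 | ⟨m, h1, h2, h3⟩
    · exact Or.inl h1
    · exact Or.inr ⟨m, h1, by omega, h3⟩
  have haq : ∀ i e, a i (q i e) = a i e := by
    intro i e
    by_cases he : q i e = e
    · rw [he]
    · rw [hqdef, cutp_of_ne p C he, hp2]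
  have hsq : ∀ i e, q i e ≠ e → s (q i e) = - s e := by
    intro i e he
    have h1 := cutp_of_ne p C he
    rw [← hqdef] at h1
    rw [h1]
    exact hs2 i e (by rw [← h1]; exact he)
  -- cancellation of the pairs
  have hcanc : ∀ i v c, |∑ e with a i e = v ∧ kap hq e = c, s e| ≤
      ((univ.filter fun e => (a i e = v ∧ kap hq e = c) ∧ q i e = e).card : ℤ) := by
    intro i v c
    have h1 : ∑ e with a i e = v ∧ kap hq e = c, s e =
        (∑ e with (a i e = v ∧ kap hq e = c) ∧ q i e = e, s e) +
        ∑ e with (a i e = v ∧ kap hq e = c) ∧ ¬ q i e = e, s e := by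
      rw [← sum_filter_add_sum_filter_not (univ.filter fun e => a i e = v ∧ kap hq e = c)
        (fun e => q i e = e), filter_filter, filter_filter]
    have h2 : ∑ e with (a i e = v ∧ kap hq e = c) ∧ ¬ q i e = e, s e = 0 := by
      refine sum_involution (fun e _ => q i e) ?_ ?_ ?_ ?_
      · intro e he
        simp only [mem_filter, mem_univ, true_and] at he
        rw [hsq i e he.2]; ring
      · intro e he _
        simp only [mem_filter, mem_univ, true_and] at he
        exact he.2
      · intro e he
        simp only [mem_filter, mem_univ, true_and] at he ⊢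
        refine ⟨⟨by rw [haq]; exact he.1.1, by rw [kap_q]; exact he.1.2⟩, ?_⟩
        rw [hq]
        exact fun hh => he.2 hh.symm
      · intro e _
        exact hq i e
    rw [h1, h2, add_zero]
    refine (abs_sum_le_sum_abs _ _).trans ?_
    rw [card_eq_sum_ones]
    push_cast
    refine sum_le_sum fun e _ => ?_
    rcases hs1 e with h3 | h3 <;> rw [h3] <;> simp
  refine ⟨kap hq, s, hs1, kap_kap hq, ?_, ?_, ?_, ?_⟩
  · intro c
    by_cases hne : ∃ e, kap hq e = c
    · obtain ⟨e, rfl⟩ := hne
      obtain ⟨m, h1, h2, h3⟩ := hper' (e, false)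
      exact (kap_card hq e m h1 h3).trans (by omega)
    · push Not at hne
      rw [filter_eq_empty_iff.mpr (by intro f _; exact hne f)]
      simp
  · intro i v c
    refine (hcanc i v c).trans ?_
    have h1 : (univ.filter fun e => (a i e = v ∧ kap hq e = c) ∧ q i e = e).card ≤
        (univ.filter fun f => kap hq f = c ∧ q i f = f).card := by
      apply card_le_card
      intro e he
      simp only [mem_filter, mem_univ, true_and] at he ⊢
      exact ⟨he.1.2, he.2⟩
    exact_mod_cast h1.trans (ends_le_two hq i c)
  · intro i v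
    refine (sum_le_sum fun c _ => hcanc i v c).trans ?_
    rw [← Nat.cast_sum]
    have h1 : ∑ c, (univ.filter fun e => (a i e = v ∧ kap hq e = c) ∧ q i e = e).card =
        (univ.filter fun e => a i e = v ∧ q i e = e).card := by
      rw [card_eq_sum_card_fiberwise (f := kap hq) (t := univ) (by intro x _; simp)]
      refine sum_congr rfl fun c _ => ?_
      rw [filter_filter]
      congr 1
      ext e
      simp only [mem_filter, mem_univ, true_and]
      tauto
    rw [h1]
    have h2 : (univ.filter fun e => a i e = v ∧ q i e = e) ⊆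
        ((univ.filter fun e => a i e = v ∧ p i e = e) ∪
        (univ.filter fun e => a i e = v ∧ (e, i) ∈ C)) ∪
        (univ.filter fun e => a i e = v ∧ (e, i) ∈ C).image (p i) := by
      intro e he
      simp only [mem_filter, mem_univ, true_and] at he
      simp only [mem_union, mem_filter, mem_univ, true_and, mem_image]
      by_cases hpe : p i e = e
      · exact Or.inl (Or.inl ⟨he.1, hpe⟩)
      · have h3 : (e, i) ∈ C ∨ (p i e, i) ∈ C := by
          by_contra hcon
          have h4 := he.2
          rw [hqdef] at h4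
          unfold cutp at h4
          rw [if_neg hcon] at h4
          exact hpe h4
        rcases h3 with h3 | h3
        · exact Or.inl (Or.inr ⟨he.1, h3⟩)
        · exact Or.inr ⟨p i e, ⟨by rw [hp2]; exact he.1, h3⟩, hp1 i e⟩
    have h3 : (univ.filter fun e => a i e = v ∧ p i e = e).card ≤ 1 := by
      rw [card_le_one]
      intro e he f hf
      simp only [mem_filter, mem_univ, true_and] at he hf
      exact hp3 i e f (he.1.trans hf.1.symm) he.2 hf.2
    have h4 := card_le_card h2
    have h5 := card_union_le ((univ.filter fun e => a i e = v ∧ p i e = e) ∪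
        (univ.filter fun e => a i e = v ∧ (e, i) ∈ C))
        ((univ.filter fun e => a i e = v ∧ (e, i) ∈ C).image (p i))
    have h6 := card_union_le (univ.filter fun e => a i e = v ∧ p i e = e)
        (univ.filter fun e => a i e = v ∧ (e, i) ∈ C)
    have h7 := card_image_le (s := univ.filter fun e => a i e = v ∧ (e, i) ∈ C) (f := p i)
    have h8 := hC2 i v
    have h9 : (univ.filter fun e => a i e = v ∧ q i e = e).card ≤
        2 * ⌈((univ.filter fun e => a i e = v).card : ℝ) / L⌉₊ + 1 := by omega
    exact_mod_cast h9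
  · intro S hS e f hef he
    obtain ⟨i, j, hij⟩ := (kap_eq_iff hq).mp hef
    obtain ⟨n, hn⟩ := hij.exists_nat_pow_eq
    have hstep : ∀ x : E × Bool, x.1 ∈ S → (tau q hq x).1 ∈ S := by
      intro x hx
      rw [tau_apply]
      exact hS x.2 x.1 _ (haq x.2 x.1).symm hx
    have hall : ∀ n, ((tau q hq ^ n) (e, i)).1 ∈ S := by
      intro n
      induction n with
      | zero => simpa using he
      | succ n ih =>
        rw [pow_succ', Equiv.Perm.mul_apply]
        exact hstep _ ih
    have h1 := hall n
    rw [hn] at h1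
    exact h1

end

end Pool.Agent.Work.MP_db9399_trl_helper59
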