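import Mathlib
import Pool.Agent.Work.MP_db9399_as_helper75.ROUND

/-!
helper59: TRAIL, part 1.  Walks along two involutions `p 0, p 1` of a finite set of edges (pairings
at the two kinds of vertex copies of a bipartite multigraph).  A dart is an edge with one of its two
ends; `tau` leaves the edge through that end.
-/

namespace Pool.Agent.Work.MP_db9399_trl_helper59

open Finset

/-- Every map can be refined by a pairing with at most one fixed point in every fibre. -/
theorem exists_pairing {E A : Type*} [Fintype E] [DecidableEq E] (a : E → A) :
    ∃ p : E → E, (∀ e, p (p e) = e) ∧ (∀ e, a (p e) = a e) ∧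
      ∀ e f, a e = a f → p e = e → p f = f → e = f := by
  classical
  have hne : ∃ n, ∃ p : E → E, (∀ e, p (p e) = e) ∧ (∀ e, a (p e) = a e) ∧
      (univ.filter fun e => p e = e).card = n :=
    ⟨_, id, fun _ => rfl, fun _ => rfl, rfl⟩
  obtain ⟨p, h1, h2, h3⟩ := Nat.find_spec hne
  refine ⟨p, h1, h2, ?_⟩
  intro e f hef he hf
  by_contra hne'
  have hlt : (univ.filter fun x => (if x = e then f else if x = f then e else p x) = x).card <
      Nat.find hne := by
    rw [← h3]
    apply card_lt_card
    rw [ssubset_iff_of_subset]
    · refine ⟨e, by simp [he], ?_⟩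
      simp only [mem_filter, mem_univ, true_and, if_true]
      exact fun h => hne' h.symm
    · intro x
      simp only [mem_filter, mem_univ, true_and]
      intro hx
      by_cases hxe : x = e
      · rw [hxe]; exact he
      · by_cases hxf : x = f
        · rw [hxf]; exact hf
        · simpa [hxe, hxf] using hx
  refine Nat.find_min hne hlt ⟨fun x => if x = e then f else if x = f then e else p x, ?_, ?_, rfl⟩
  · intro x
    by_cases hxe : x = e
    · subst hxe
      have : f ≠ x := fun h => hne' h.symm
      simp [this]
    · by_cases hxf : x = f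
      · subst hxf
        simp [hxe]
      · have h4 : p x ≠ e := fun h => hxe (by rw [← h1 x, h, he])
        have h5 : p x ≠ f := fun h => hxf (by rw [← h1 x, h, hf])
        simp [hxe, hxf, h4, h5, h1]
  · intro x
    by_cases hxe : x = e
    · subst hxe
      simp [hef]
    · by_cases hxf : x = f
      · subst hxf
        simp [hxe, hef]
      · simp [hxe, hxf, h2]

section
variable {E : Type*}

/-- One step of the walk. -/
def tau (p : Bool → E → E) (h : ∀ i e, p i (p i e) = e) : Equiv.Perm (E × Bool) where
  toFun x := (p x.2 x.1, !x.2)
  invFun x := (p (!x.2) x.1, !x.2)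
  left_inv x := by simp [h]
  right_inv x := by simp [h]

/-- Turning round. -/
def rev (x : E × Bool) : E × Bool := (x.1, !x.2)

@[simp] theorem rev_rev (x : E × Bool) : rev (rev x) = x := by simp [rev]

@[simp] theorem rev_fst (x : E × Bool) : (rev x).1 = x.1 := rfl

variable (p : Bool → E → E) (h : ∀ i e, p i (p i e) = e)

theorem tau_apply (x : E × Bool) : tau p h x = (p x.2 x.1, !x.2) := rfl

theorem tau_rev_tau (x : E × Bool) : tau p h (rev (tau p h x)) = rev x := by
  simp [tau_apply, rev, h]

/-- The walk commutes with reversal up to inversion. -/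
theorem pow_rev_pow (k : ℕ) (x : E × Bool) :
    (tau p h ^ k) (rev ((tau p h ^ k) x)) = rev x := by
  induction k generalizing x with
  | zero => simp
  | succ k ih =>
    rw [pow_succ, Equiv.Perm.mul_apply, Equiv.Perm.mul_apply, ← Equiv.Perm.mul_apply (tau p h ^ k),
      ← pow_succ, pow_succ', Equiv.Perm.mul_apply, ih, tau_rev_tau]

end

end Pool.Agent.Work.MP_db9399_trl_helper59
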